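import Pool.Agent.Helper94.PQ.StmtsT

/-!
# Representations on which a normal subgroup acts trivially
-/

set_option autoImplicit false

open scoped Classical

namespace PQ

open BKA Pool.Agent.Helper13.Swan

/-- sums over a group and over the cosets of a subgroup -/
theorem sum_cosets33 {P M : Type} [Group P] [Fintype P] [AddCommMonoid M] (H : Subgroup P)
    (F : P → M) : ∑ g : P, F g = ∑ c : P ⧸ H, ∑ h : H, F ((Quotient.out c : P) * h) := by
  rw [← Fintype.sum_prod_type' (f := fun (c : P ⧸ H) (h : H) => F ((Quotient.out c : P) * h))]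
  symm
  apply Fintype.sum_bijective (fun x : (P ⧸ H) × H => (Quotient.out x.1 : P) * x.2)
  · constructor
    · rintro ⟨c, h⟩ ⟨c', h'⟩ he
      simp only at he
      have hc : c = c' := by
        have h1 := congrArg (fun g : P => (g : P ⧸ H)) he
        simp only [QuotientGroup.mk_mul_of_mem _ h.2, QuotientGroup.mk_mul_of_mem _ h'.2] at h1
        have h2 : ((Quotient.out c : P) : P ⧸ H) = c := Quotient.out_eq c
        have h3 : ((Quotient.out c' : P) : P ⧸ H) = c' := Quotient.out_eq c'
        rw [h2, h3] at h1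
        exact h1
      subst hc
      have h4 : h = h' := Subtype.ext (mul_left_cancel he)
      rw [h4]
    · intro g
      refine ⟨((g : P ⧸ H), ⟨(Quotient.out (g : P ⧸ H) : P)⁻¹ * g, ?_⟩), ?_⟩
      · exact QuotientGroup.eq.1 (Quotient.out_eq (g : P ⧸ H))
      · simp
  · intro x
    rfl

/-- GQUO -/
theorem gquo (hQ : ST_QUO) : ST_GQUO := by
  intro P k V _ _ _ _ _ _ _ N _ r r' hr H Ω _ _ _ _ w π hB
  obtain ⟨Ω', _, _, _, _, w', π', hB', φ, h1, h2, h3⟩ := hQ Ω P w π hB N
  obtain ⟨D', s', j', hD0, hD1, hD2, hD3⟩ := H Ω' w' π' hB'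
  refine ⟨φ D', (Nat.card N : ℤ) * s', j', ?_, ?_, ?_, ?_⟩
  · intro h
    exact hD0 ((map_eq_zero φ).1 h)
  · intro g
    rw [hr g, ← h1 g D']
    rcases hD1 (g : P ⧸ N) with ⟨ha, hb⟩ | ⟨ha, hb⟩
    · left
      exact ⟨ha, by rw [hb]⟩
    · right
      exact ⟨ha, by rw [hb, map_neg]⟩
  · push_cast
    rw [hD2, Finset.mul_sum, sum_cosets33 N]
    apply Finset.sum_congr rfl
    intro c _
    have e1 : ∀ h : N, r ((Quotient.out c : P) * h) = r' c := by
      intro h
      rw [hr]
      congr 1
      rw [QuotientGroup.mk_mul, (QuotientGroup.eq_one_iff (h : P)).2 h.2, mul_one]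
      exact Quotient.out_eq c
    have e2 : ∀ h : N, ((Module.finrank k V : k) - LinearMap.trace k V
        (r ((Quotient.out c : P) * h))) * (dI w π ((Quotient.out c : P) * h) : k) =
        ((Module.finrank k V : k) - LinearMap.trace k V (r' c)) *
          (dI w π ((Quotient.out c : P) * h) : k) := by
      intro h
      rw [e1 h]
    rw [Finset.sum_congr rfl (fun h _ => e2 h), ← Finset.mul_sum]
    by_cases hc : c = 1
    · have e3 : (Module.finrank k V : k) - LinearMap.trace k V (r' c) = 0 := by
        rw [hc, map_one, LinearMap.trace_one, sub_self]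
      rw [e3, zero_mul, zero_mul, mul_zero]
    · have hg : (Quotient.out c : P) ∉ N := by
        intro hN
        apply hc
        rw [← Quotient.out_eq c]
        exact (QuotientGroup.eq_one_iff _).2 hN
      have h4 := h3 _ hg
      have h5 : ((Quotient.out c : P) : P ⧸ N) = c := Quotient.out_eq c
      rw [h5] at h4
      have h6 := congrArg (fun z : ℤ => (z : k)) h4
      push_cast at h6
      rw [← h6]
      ring
  · rw [h2, ← pow_mul, mul_comm (Nat.card N) 2, pow_mul, hD3, ex_pow]
    congr 1
    have hcard : (Nat.card P : ℤ) = Nat.card N * Nat.card (P ⧸ N) := by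
      have := Subgroup.card_mul_index N
      rw [← this]
      push_cast
      rfl
    rw [hcard]
    ring

end PQ
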