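import Pool.Agent.Helper33.PQ.GQUO
import Pool.Agent.Helper23.PQ.DISC1

/-!
# The elements of trace zero avoid one class of valuations
-/

set_option autoImplicit false

open scoped Classical

namespace PQ

open BKA Pool.Agent.Helper13.Swan Polynomial

section miss

variable {Ω P : Type} [Field Ω] [Group P] [MulSemiringAction P Ω] [Fintype P]
  {w : Valuation Ω (WithZero (Multiplicative ℤ))} {π : Ω}

/-- the formula of Euler, with integrality -/
theorem miss_int {ι : Type} [Fintype ι] [DecidableEq ι] (v : ι → Ω) (hinj : Function.Injective v)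
    (hv : ∀ i, w (v i) ≤ 1) (q : Polynomial Ω) (hq : ∀ k, w (q.coeff k) ≤ 1) :
    w (∑ i, q.eval (v i) / ∏ j ∈ Finset.univ.erase i, (v i - v j)) ≤ 1 := by
  set O := w.integer with hO
  have hqO : (↑q.coeffs : Set Ω) ⊆ O := by
    intro x hx
    obtain ⟨k, _, rfl⟩ := mem_coeffs_iff.1 hx
    exact hq k
  set f : Polynomial O := ∏ i, (X - C (⟨v i, hv i⟩ : O)) with hf
  have hfm : f.Monic := monic_prod_of_monic _ _ (fun i _ => monic_X_sub_C _)
  have hfd : f.degree = (Fintype.card ι : ℕ) := by
    rw [hf, degree_prod]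
    simp
  set q' := q.toSubring O hqO with hq'
  set r := q' %ₘ f with hr
  have hdiv : r + f * (q' /ₘ f) = q' := modByMonic_add_div _ _
  have hrd : (r.map O.subtype).degree < ((Finset.univ : Finset ι).card : ℕ) := by
    refine lt_of_le_of_lt degree_map_le ?_
    rw [Finset.card_univ, ← hfd]
    exact degree_modByMonic_lt _ hfm
  have hev : ∀ i, q.eval (v i) = (r.map O.subtype).eval (v i) := by
    intro i
    have h1 := congrArg (fun p => (p.map O.subtype).eval (v i)) hdiv
    simp only [Polynomial.map_add, Polynomial.map_mul, eval_add, eval_mul] at h1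
    rw [hq', map_toSubring] at h1
    rw [← h1]
    have h2 : (f.map O.subtype).eval (v i) = 0 := by
      rw [hf, Polynomial.map_prod, eval_prod]
      apply Finset.prod_eq_zero (Finset.mem_univ i)
      simp
    rw [h2, zero_mul, add_zero]
  have h3 := Lagrange.coeff_eq_sum (v := v) (s := (Finset.univ : Finset ι))
    (hinj.injOn) hrd
  have h4 : ∑ i, q.eval (v i) / ∏ j ∈ Finset.univ.erase i, (v i - v j) =
      (r.map O.subtype).coeff ((Finset.univ : Finset ι).card - 1) := by
    rw [h3]
    apply Finset.sum_congr rfl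
    intro i _
    rw [hev i]
  rw [h4, coeff_map]
  exact (r.coeff _).2

/-- approximation by polynomials in the norm of the uniformiser -/
theorem miss_approx (hB : Base P w π) [FaithfulSMul P Ω] (H : Subgroup P) (N : ℕ) :
    ∀ y : Ω, Fx H y → w y ≤ 1 →
    ∃ q : Polynomial Ω, (∀ k, (∀ τ : P, τ • q.coeff k = q.coeff k) ∧ w (q.coeff k) ≤ 1) ∧
      w (y - q.eval (nm H π)) ≤ ex (N * Nat.card H) := by
  have hν0 : nm H π ≠ 0 := nm_ne_zero H hB.pi_ne
  have hwν := hB.val_nm_pi H
  induction N with
  | zero =>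
    intro y _ hy
    refine ⟨0, fun k => ⟨fun τ => by simp, by simp⟩, ?_⟩
    simpa [ex_zero] using hy
  | succ N ih =>
    intro y hfy hy
    obtain ⟨a, ha, hya⟩ := hB.res y hy
    have hwa : w a ≤ 1 := by
      have e1 : a = y - (y - a) := by ring
      rw [e1]
      exact w.map_sub_le hy hya.le
    have hfa : Fx H a := fun τ _ => ha τ
    have hfya : Fx H (y - a) := hfy.sub hfa
    have hle : w (y - a) ≤ ex (Nat.card H) := by
      by_cases h0 : y - a = 0
      · rw [h0, map_zero]
        exact zero_le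
      · obtain ⟨k, hk⟩ := hB.val_fixed H hfya h0
        rw [hk, ← ex_zero, ex_lt_ex] at hya
        rw [hk, ex_le_ex]
        have hc : (0 : ℤ) < Nat.card H := by exact_mod_cast Nat.card_pos
        have hk1 : 1 ≤ k := by
          by_contra hk0
          have : k ≤ 0 := by omega
          nlinarith
        nlinarith
    have h1 : w ((y - a) / nm H π) ≤ 1 := by
      rw [map_div₀, hwν]
      exact div_le_one_of_le₀ hle zero_le
    obtain ⟨q, hq, hq2⟩ := ih _ (hfya.div (nm_fixed H π)) h1
    refine ⟨C a + X * q, ?_, ?_⟩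
    · intro k
      cases k with
      | zero =>
        simp only [coeff_add, coeff_C_zero, mul_coeff_zero, coeff_X_zero, zero_mul, add_zero]
        exact ⟨ha, hwa⟩
      | succ k =>
        have e1 : (C a + X * q).coeff (k + 1) = q.coeff k := by
          rw [coeff_add, coeff_C_succ, coeff_X_mul, zero_add]
        rw [e1]
        exact hq k
    · have e1 : y - (C a + X * q).eval (nm H π) =
          nm H π * ((y - a) / nm H π - q.eval (nm H π)) := by
        rw [eval_add, eval_C, eval_mul, eval_X]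
        field_simp
        ring
      have e2 : (((N + 1 : ℕ) : ℤ)) * Nat.card H = Nat.card H + N * Nat.card H := by
        push_cast
        ring
      rw [e1, map_mul, hwν, e2, ex_add]
      gcongr

omit [Fintype P] in
theorem ex_dI (hB : Base P w π) [FaithfulSMul P Ω] [Finite P] {g : P} (hg : g ≠ 1) :
    ex (dI w π g) = w (g • π - π) := by
  have := Fintype.ofFinite P
  have h0 : w (g • π - π) ≠ 0 := by
    rw [Valuation.ne_zero_iff]
    intro h
    exact hg (hB.pi_free (sub_eq_zero.1 h))
  unfold dI ex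
  rw [neg_neg, WithZero.exp_log h0]

theorem miss_main (hB : Base P w π) [FaithfulSMul P Ω] (H : Subgroup P) (x : Ω) (hx : Fx H x)
    (j : ℤ)
    (hwx : w x = ex (-(∑ g : P, if g ∈ H then 0 else dI w π g) - (Nat.card H : ℤ) +
      (Nat.card P : ℤ) * j)) :
    ∑ c : P ⧸ H, (Quotient.out c : P) • x ≠ 0 := by
  set ν := nm H π with hν
  have hfν : Fx H ν := nm_fixed H π
  have hν0 : ν ≠ 0 := nm_ne_zero H hB.pi_ne
  have hwν : w ν = ex (Nat.card H) := hB.val_nm_pi H
  have hcH : (0 : ℤ) < Nat.card H := by exact_mod_cast Nat.card_pos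
  have hν1 : w ν ≤ 1 := by
    rw [hwν, ← ex_zero, ex_le_ex]
    exact hcH.le
  set δ : ℤ := ∑ g : P, if g ∈ H then 0 else dI w π g with hδ
  -- values on cosets
  have hout : ∀ (g : P) (y : Ω), Fx H y → (Quotient.out (g : P ⧸ H) : P) • y = g • y := by
    intro g y hy
    have h1 : (Quotient.out (g : P ⧸ H) : P)⁻¹ * g ∈ H :=
      QuotientGroup.eq.1 (Quotient.out_eq (g : P ⧸ H))
    have h2 := hy _ h1
    rw [mul_smul, inv_smul_eq_iff] at h2
    exact h2.symm
  set v : P ⧸ H → Ω := fun c => (Quotient.out c : P) • ν with hv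
  have hvg : ∀ g : P, v (g : P ⧸ H) = g • ν := fun g => hout g ν hfν
  have hdisc : ∀ g : P, w (g • ν - ν) = ∏ h : H, w ((g * h) • π - π) := fun g => disc_eq hB H g
  have hmem : ∀ c : P ⧸ H, (Quotient.out c : P) ∈ H ↔ c = ((1 : P) : P ⧸ H) := by
    intro c
    constructor
    · intro h
      rw [← Quotient.out_eq c]
      change ((Quotient.out c : P) : P ⧸ H) = _
      rw [QuotientGroup.eq]
      simpa using h
    · intro h
      have h1 : (Quotient.out ((1 : P) : P ⧸ H) : P)⁻¹ * 1 ∈ H :=
        QuotientGroup.eq.1 (Quotient.out_eq ((1 : P) : P ⧸ H))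
      rw [mul_one, H.inv_mem_iff] at h1
      rw [h]
      exact h1
  have hinj0 : ∀ g : P, g ∉ H → g • ν ≠ ν := by
    intro g hg h
    have h1 := hdisc g
    rw [h, sub_self, map_zero] at h1
    obtain ⟨h', _, hh⟩ := Finset.prod_eq_zero_iff.1 h1.symm
    rw [map_eq_zero] at hh
    have h2 := hB.pi_free (sub_eq_zero.1 hh)
    apply hg
    have h3 : g = (h' : P)⁻¹ := eq_inv_of_mul_eq_one_left h2
    rw [h3]
    exact H.inv_mem h'.2
  have hinj : Function.Injective v := by
    intro c c' h
    by_contra hne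
    have h1 : ((Quotient.out c : P)⁻¹ * (Quotient.out c' : P)) • ν = ν := by
      rw [mul_smul, inv_smul_eq_iff]
      exact h.symm
    refine hinj0 _ ?_ h1
    intro h2
    apply hne
    rw [← Quotient.out_eq c, ← Quotient.out_eq c']
    exact QuotientGroup.eq.2 h2
  have hv1 : ∀ c, w (v c) ≤ 1 := by
    intro c
    simp only [hv]
    rw [hB.inv]
    exact hν1
  -- the different
  set D : Ω := ∏ c ∈ (Finset.univ : Finset (P ⧸ H)).erase ((1 : P) : P ⧸ H), (ν - v c) with hD
  have hgD : ∀ g : P, g • D =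
      ∏ c ∈ (Finset.univ : Finset (P ⧸ H)).erase (g : P ⧸ H), (g • ν - v c) := by
    intro g
    rw [hD, Finset.smul_prod']
    apply Finset.prod_bij (fun c _ => g • c)
    · intro c hc
      rw [Finset.mem_erase] at hc ⊢
      refine ⟨?_, Finset.mem_univ _⟩
      intro h
      apply hc.1
      have h1 : g • c = g • ((1 : P) : P ⧸ H) := by
        rw [h]
        change _ = ((g * 1 : P) : P ⧸ H)
        rw [mul_one]
      exact smul_left_cancel g h1
    · intro c _ c' _ h
      exact smul_left_cancel g h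
    · intro c hc
      rw [Finset.mem_erase] at hc
      refine ⟨g⁻¹ • c, ?_, smul_inv_smul g c⟩
      rw [Finset.mem_erase]
      refine ⟨?_, Finset.mem_univ _⟩
      intro h
      apply hc.1
      rw [inv_smul_eq_iff] at h
      rw [h]
      change ((g * 1 : P) : P ⧸ H) = _
      rw [mul_one]
    · intro c _
      rw [smul_sub]
      congr 1
      have h1 : g • c = ((g * (Quotient.out c : P) : P) : P ⧸ H) := by
        have h2 : c = ((Quotient.out c : P) : P ⧸ H) := (Quotient.out_eq c).symm
        conv_lhs => rw [h2]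
        rfl
      rw [h1, hvg, mul_smul]
  have hout1 : ∀ c : P ⧸ H, (Quotient.out c : P) • D =
      ∏ c' ∈ (Finset.univ : Finset (P ⧸ H)).erase c, (v c - v c') := by
    intro c
    rw [hgD]
    have h2 : ((Quotient.out c : P) : P ⧸ H) = c := Quotient.out_eq c
    rw [h2]
  have hfD : Fx H D := by
    intro h hh
    rw [hgD, hfν h hh]
    have h2 : (h : P ⧸ H) = ((1 : P) : P ⧸ H) := by
      rw [QuotientGroup.eq, mul_one]
      exact H.inv_mem hh
    rw [h2]
  have hwD : w D = ex δ := by
    rw [hD, map_prod]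
    have h1 : ∀ c ∈ (Finset.univ : Finset (P ⧸ H)).erase ((1 : P) : P ⧸ H),
        w (ν - v c) = ex (∑ h : H, if ((Quotient.out c : P) * h) ∈ H then 0 else
          dI w π ((Quotient.out c : P) * h)) := by
      intro c hc
      rw [Finset.mem_erase] at hc
      have hc1 : (Quotient.out c : P) ∉ H := fun h => hc.1 ((hmem c).1 h)
      rw [← Valuation.map_neg, neg_sub]
      simp only [hv]
      rw [hdisc, ← prod_ex]
      apply Finset.prod_congr rfl
      intro h _
      have hc2 : (Quotient.out c : P) * h ∉ H := by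
        intro h3
        exact hc1 ((H.mul_mem_cancel_right h.2).1 h3)
      rw [if_neg hc2, ex_dI hB]
      intro h3
      apply hc2
      rw [h3]
      exact H.one_mem
    rw [Finset.prod_congr rfl h1, prod_ex, hδ, sum_cosets33 H]
    congr 1
    apply Finset.sum_erase
    apply Finset.sum_eq_zero
    intro h _
    rw [if_pos]
    exact H.mul_mem ((hmem _).2 rfl) h.2
  have hD0 : D ≠ 0 := by
    intro h
    rw [h, map_zero] at hwD
    exact ex_ne_zero _ hwD.symm
  -- the trace
  set T : Ω → Ω := fun y => ∑ c : P ⧸ H, (Quotient.out c : P) • y with hT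
  have hTadd : ∀ y z, T (y + z) = T y + T z := by
    intro y z
    simp only [hT, smul_add, Finset.sum_add_distrib]
  have hTmul : ∀ a, (∀ τ : P, τ • a = a) → ∀ y, T (a * y) = a * T y := by
    intro a ha y
    simp only [hT, Finset.mul_sum]
    apply Finset.sum_congr rfl
    intro c _
    rw [smul_mul', ha]
  have hwT : ∀ y, w (T y) ≤ w y := by
    intro y
    simp only [hT]
    apply w.map_sum_le
    intro c _
    rw [hB.inv]
  have hTq : ∀ q : Polynomial Ω, (∀ k, ∀ τ : P, τ • q.coeff k = q.coeff k) →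
      T (q.eval ν / D) = ∑ c : P ⧸ H, q.eval (v c) /
        ∏ c' ∈ (Finset.univ : Finset (P ⧸ H)).erase c, (v c - v c') := by
    intro q hq
    simp only [hT]
    apply Finset.sum_congr rfl
    intro c _
    have h1 : (Quotient.out c : P) • (q.eval ν / D) =
        ((Quotient.out c : P) • q.eval ν) / ((Quotient.out c : P) • D) :=
      map_div₀ (MulSemiringAction.toRingHom P Ω (Quotient.out c : P)) _ _
    rw [h1, hout1 c]
    congr 1
    set σ := MulSemiringAction.toRingHom P Ω (Quotient.out c : P) with hσ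
    have h2 : q.map σ = q := by
      ext k
      rw [coeff_map, hσ, MulSemiringAction.toRingHom_apply, hq k]
    have h3 : (q.map σ).eval (σ ν) = σ (q.eval ν) := by
      rw [eval_map, eval₂_at_apply]
    rw [h2] at h3
    exact h3.symm
  have hbound : ∀ y, Fx H y → w y ≤ 1 → w (T (y / D)) ≤ 1 := by
    intro y hy hy1
    obtain ⟨q, hq, hq2⟩ := miss_approx hB H δ.toNat y hy hy1
    have e1 : y / D = (y - q.eval ν) / D + q.eval ν / D := by
      rw [← add_div]
      congr 1
      ring
    rw [e1, hTadd, hTq q (fun k => (hq k).1)]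
    apply w.map_add_le
    · refine (hwT _).trans ?_
      rw [map_div₀, hwD]
      apply div_le_one_of_le₀ _ zero_le
      refine hq2.trans ?_
      rw [ex_le_ex]
      have h5 : δ ≤ δ.toNat := Int.self_le_toNat δ
      have h6 : (0 : ℤ) ≤ δ.toNat := by positivity
      nlinarith
    · exact miss_int v hinj hv1 q (fun k => (hq k).2)
  -- the number of cosets
  set n := Nat.card (P ⧸ H) with hn
  have hn1 : 1 ≤ n := Nat.card_pos
  have hcard : (Nat.card P : ℤ) = n * Nat.card H := by
    have := Subgroup.card_mul_index H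
    rw [← this]
    push_cast
    rw [mul_comm]
    rfl
  have hTν : T (ν ^ (n - 1) / D) = 1 := by
    have h1 := hTq (X ^ (n - 1)) (by
      intro k τ
      rw [coeff_X_pow]
      split_ifs
      · exact smul_one τ
      · exact smul_zero τ)
    rw [eval_pow, eval_X] at h1
    rw [h1]
    have hcu : (Finset.univ : Finset (P ⧸ H)).card = n := by
      rw [Finset.card_univ, hn, Nat.card_eq_fintype_card]
    have h3 := Lagrange.coeff_eq_sum (v := v) (s := (Finset.univ : Finset (P ⧸ H)))
      (hinj.injOn) (P := (X ^ (n - 1) : Polynomial Ω)) (by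
        rw [degree_X_pow, hcu]
        exact_mod_cast Nat.sub_lt hn1 one_pos)
    rw [← h3, hcu, coeff_X_pow, if_pos rfl]
  -- scaling
  set t := nm (⊤ : Subgroup P) π with ht
  have ht0 : t ≠ 0 := nm_ne_zero _ hB.pi_ne
  have hft : ∀ τ : P, τ • t = t := fun τ => nm_fixed _ π τ (Subgroup.mem_top τ)
  have hwt : w t = ex (Nat.card P) := by
    rw [ht, hB.val_nm_pi, Subgroup.card_top]
  have hftz : ∀ (m : ℤ) (τ : P), τ • t ^ m = t ^ m := by
    intro m τ
    have h5 := map_zpow₀ (MulSemiringAction.toRingHom P Ω τ) t m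
    rw [MulSemiringAction.toRingHom_apply, MulSemiringAction.toRingHom_apply, hft τ] at h5
    exact h5
  have hexz : ∀ a m : ℤ, ex a ^ m = ex (a * m) := by
    intro a m
    unfold ex
    rw [← WithZero.exp_zsmul, smul_eq_mul]
    congr 1
    ring
  intro hT0
  set x1 := t ^ (1 - j) * x with hx1
  have hTx1 : T x1 = 0 := by
    rw [hx1, hTmul _ (hftz _)]
    have : T x = 0 := hT0
    rw [this, mul_zero]
  have hfx1 : Fx H x1 := Fx.mul (fun τ _ => hftz _ τ) hx
  have hwx1 : w x1 = ex (-δ - Nat.card H + Nat.card P) := by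
    rw [hx1, map_mul, map_zpow₀, hwt, hexz, hwx, ← ex_add]
    congr 1
    ring
  set ρ := x1 * D / ν ^ (n - 1) with hρ
  have hfρ : Fx H ρ := (hfx1.mul hfD).div (hfν.pow _)
  have hn2 : (((n - 1 : ℕ) : ℤ)) = n - 1 := by
    rw [Nat.cast_sub hn1]
    simp
  have hwρ : w ρ = 1 := by
    rw [hρ, map_div₀, map_mul, hwx1, hwD, map_pow, hwν, ex_pow, ← ex_add, ← ex_sub, ← ex_zero]
    congr 1
    rw [hn2, hcard]
    ring
  obtain ⟨c0, hc0, hρc⟩ := hB.res ρ hwρ.le
  have hwc0 : w c0 = 1 := by
    have e1 : c0 = ρ - (ρ - c0) := by ring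
    rw [e1, Valuation.map_sub_eq_of_lt_left w (by rw [hwρ]; exact hρc), hwρ]
  have hfc0 : Fx H c0 := fun τ _ => hc0 τ
  have hρc2 : w (ρ - c0) ≤ ex (Nat.card H) := by
    by_cases h0 : ρ - c0 = 0
    · rw [h0, map_zero]
      exact zero_le
    · obtain ⟨k, hk⟩ := hB.val_fixed H (hfρ.sub hfc0) h0
      rw [hk, ← ex_zero, ex_lt_ex] at hρc
      rw [hk, ex_le_ex]
      have hk1 : 1 ≤ k := by
        by_contra hk0
        have : k ≤ 0 := by omega
        nlinarith
      nlinarith
  set y := (ρ - c0) * ν ^ (n - 1) / t with hy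
  have hfy : Fx H y := ((hfρ.sub hfc0).mul (hfν.pow _)).div (fun τ _ => hft τ)
  have hwy : w y ≤ 1 := by
    rw [hy, map_div₀, map_mul, map_pow, hwν, ex_pow, hwt]
    apply div_le_one_of_le₀ _ zero_le
    refine (mul_le_mul_left hρc2 _).trans ?_
    rw [← ex_add, ex_le_ex, hn2, hcard]
    nlinarith
  have hx1e : x1 = c0 * (ν ^ (n - 1) / D) + t * (y / D) := by
    rw [hy, hρ]
    have : ν ^ (n - 1) ≠ 0 := pow_ne_zero _ hν0
    field_simp
    ring
  have h6 := hTx1
  rw [hx1e, hTadd, hTmul c0 hc0, hTmul t hft, hTν, mul_one] at h6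
  have h7 : c0 = -(t * T (y / D)) := eq_neg_of_add_eq_zero_left h6
  have h8 : w c0 ≤ ex (Nat.card P) := by
    rw [h7, Valuation.map_neg, map_mul, hwt]
    exact mul_le_of_le_one_right zero_le (hbound y hfy hwy)
  rw [hwc0, ← ex_zero, ex_le_ex] at h8
  have h9 : (0 : ℤ) < Nat.card P := by exact_mod_cast Nat.card_pos
  omega

end miss

/-- MISS -/
theorem miss : ST_MISS := by
  intro Ω P _ _ _ _ _ w π hB H x hx _ ⟨j, hj⟩
  exact miss_main hB H x hx j hj

end PQ
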